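import Mathlib
import Pool.Agent.V11256.NoUnif

/-!
# Complements of finitely colourable families without a Borel uniformization

For a continuous surjection `g` of the Baire space without a Borel right inverse let `B` be the set
of all `(x, y)` such that for every `z` with `g z = x` some interval of the interval partition
attached to `z` contains at least two elements of `y`. The sections of `B` are Borel 3-colourable,
and a Borel uniformization of the complement of `B` gives, by compactness, a Borel right inverse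
of `g`.
-/

namespace Pool.Agent.Results.MP_bd9785_lc.NoUniformization

open Set MeasureTheory

/-- The infinite subsets of `ℕ`, as a subspace of the Cantor space. -/
abbrev Inf : Type := {y : ℕ → Bool // {n | y n = true}.Infinite}

/-- The shift map `y ↦ y \ {min y}`. -/
noncomputable def shift (y : Inf) : Inf :=
  ⟨fun n => y.1 n && decide (n ≠ sInf {m | y.1 m = true}), by
    refine (y.2.sdiff (finite_singleton (sInf {m | y.1 m = true}))).mono ?_
    rintro n ⟨h1, h2⟩
    have h3 : n ≠ sInf {m | y.1 m = true} := h2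
    have h4 : y.1 n = true := h1
    show (y.1 n && decide (n ≠ sInf {m | y.1 m = true})) = true
    rw [h4, decide_eq_true h3, Bool.and_self]⟩

/-- The shift graph. -/
def Adj (y z : Inf) : Prop := z = shift y ∨ y = shift z

/-- The induced subgraph of the shift graph on `A` has a Borel `k`-colouring. -/
def HasColouring (A : Set Inf) (k : ℕ) : Prop :=
  ∃ c : A → Fin k, Measurable c ∧ ∀ y z : A, Adj y.1 z.1 → c y ≠ c z

/-! ### Colourings -/

/-- The left end points of the interval partition attached to `z`. -/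
def ep (z : ℕ → ℕ) (k : ℕ) : ℕ := ∑ i ∈ Finset.range k, (z i + 1)

theorem ep_succ (z : ℕ → ℕ) (k : ℕ) : ep z (k + 1) = ep z k + (z k + 1) := Finset.sum_range_succ _ _

theorem ep_mono (z : ℕ → ℕ) : Monotone (ep z) :=
  monotone_nat_of_le_succ fun k => by rw [ep_succ]; omega

/-- Two elements of `y` in the `k`-th interval. -/
def Two (z : ℕ → ℕ) (y : ℕ → Bool) (k : ℕ) : Prop :=
  ∃ p q, ep z k ≤ p ∧ p < q ∧ q < ep z (k + 1) ∧ y p = true ∧ y q = true

/-- The number of elements of `y` below `n`. -/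
def cn (y : ℕ → Bool) (n : ℕ) : ℕ := ((Finset.range n).filter fun p => y p = true).card

theorem exists_pr (z : ℕ → ℕ) (y : ℕ → Bool) : ∃ k, Two z y k ∨ ¬ ∃ k, Two z y k := by
  by_cases h : ∃ k, Two z y k
  · obtain ⟨k, hk⟩ := h
    exact ⟨k, Or.inl hk⟩
  · exact ⟨0, Or.inr h⟩

open Classical in
/-- The least `k` with two elements of `y` in the `k`-th interval. -/
noncomputable def kap (z : ℕ → ℕ) (y : ℕ → Bool) : ℕ := Nat.find (exists_pr z y)

theorem two_kap {z : ℕ → ℕ} {y : ℕ → Bool} (h : ∃ k, Two z y k) : Two z y (kap z y) := by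
  classical
  rcases Nat.find_spec (exists_pr z y) with h1 | h1
  · exact h1
  · exact absurd h h1

theorem kap_le {z : ℕ → ℕ} {y : ℕ → Bool} {k : ℕ} (h : Two z y k) : kap z y ≤ k := by
  classical
  exact Nat.find_min' (exists_pr z y) (Or.inl h)

/-- The colour. -/
noncomputable def colr (z : ℕ → ℕ) (y : ℕ → Bool) : Fin 3 :=
  if cn y (ep z (kap z y + 1)) = 2 then 2 else
    if cn y (ep z (kap z y + 1)) % 2 = 0 then 0 else 1

theorem measurableSet_two (z : ℕ → ℕ) (k : ℕ) : MeasurableSet {y : ℕ → Bool | Two z y k} := by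
  have : {y : ℕ → Bool | Two z y k} = ⋃ p : ℕ, ⋃ q : ℕ, ⋃ _ : ep z k ≤ p, ⋃ _ : p < q,
      ⋃ _ : q < ep z (k + 1), ({y : ℕ → Bool | y p = true} ∩ {y : ℕ → Bool | y q = true}) := by
    ext y
    simp only [Two, mem_ofPred_eq, mem_iUnion, mem_inter_iff, exists_prop]
  rw [this]
  have h : ∀ p, MeasurableSet {y : ℕ → Bool | y p = true} := fun p =>
    (measurable_pi_apply (X := fun _ : ℕ => Bool) p) (measurableSet_singleton true)
  exact MeasurableSet.iUnion fun p => MeasurableSet.iUnion fun q => MeasurableSet.iUnion fun _ =>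
    MeasurableSet.iUnion fun _ => MeasurableSet.iUnion fun _ => (h p).inter (h q)

theorem measurable_kap (z : ℕ → ℕ) : Measurable (kap z) := by
  classical
  refine measurable_find (exists_pr z) fun k => ?_
  have : {y : ℕ → Bool | Two z y k ∨ ¬ ∃ k, Two z y k} =
      {y : ℕ → Bool | Two z y k} ∪ (⋃ k, {y : ℕ → Bool | Two z y k})ᶜ := by
    ext y
    simp
  rw [this]
  exact (measurableSet_two z k).union (MeasurableSet.iUnion fun k => measurableSet_two z k).compl

theorem measurable_cn (n : ℕ) : Measurable fun y : ℕ → Bool => cn y n := by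
  have : (fun y : ℕ → Bool => cn y n) = fun y => ∑ p ∈ Finset.range n, if y p = true then 1 else 0 := by
    funext y
    exact Finset.card_filter _ _
  rw [this]
  refine Finset.measurable_sum _ fun p _ => Measurable.ite ?_ measurable_const measurable_const
  exact (measurable_pi_apply (X := fun _ : ℕ => Bool) p) (measurableSet_singleton true)

theorem measurable_colr (z : ℕ → ℕ) : Measurable (colr z) := by
  have h1 : Measurable fun x : ℕ × (ℕ → Bool) => cn x.2 (ep z (x.1 + 1)) :=
    measurable_from_prod_countable_right fun k => measurable_cn (ep z (k + 1))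
  have h2 : Measurable fun y : ℕ → Bool => cn y (ep z (kap z y + 1)) :=
    h1.comp ((measurable_kap z).prodMk measurable_id)
  exact (measurable_of_countable (fun n : ℕ => (if n = 2 then 2 else
    if n % 2 = 0 then 0 else 1 : Fin 3))).comp h2

theorem cn_two {y : ℕ → Bool} {p q n : ℕ} (hpq : p < q) (hq : q < n) (hp1 : y p = true)
    (hq1 : y q = true) : 2 ≤ cn y n := by
  have h1 : ({p, q} : Finset ℕ).card = 2 := Finset.card_pair hpq.ne
  rw [← h1]
  refine Finset.card_le_card fun x hx => ?_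
  rw [Finset.mem_filter, Finset.mem_range]
  rcases Finset.mem_insert.mp hx with rfl | hx
  · exact ⟨hpq.trans hq, hp1⟩
  · rw [Finset.mem_singleton.mp hx]
    exact ⟨hq, hq1⟩

theorem cn_three {y : ℕ → Bool} {r p q n : ℕ} (hrp : r < p) (hpq : p < q) (hq : q < n)
    (hr1 : y r = true) (hp1 : y p = true) (hq1 : y q = true) : 3 ≤ cn y n := by
  have h1 : ({r, p, q} : Finset ℕ).card = 3 :=
    Finset.card_eq_three.mpr ⟨r, p, q, hrp.ne, (hrp.trans hpq).ne, hpq.ne, rfl⟩
  rw [← h1]
  refine Finset.card_le_card fun x hx => ?_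
  rw [Finset.mem_filter, Finset.mem_range]
  simp only [Finset.mem_insert, Finset.mem_singleton] at hx
  rcases hx with rfl | rfl | rfl
  · exact ⟨(hrp.trans hpq).trans hq, hr1⟩
  · exact ⟨hpq.trans hq, hp1⟩
  · exact ⟨hq, hq1⟩

theorem colr_ne {z : ℕ → ℕ} {y y' : ℕ → Bool} {μ : ℕ} (hμ : y μ = true)
    (hmin : ∀ p, y p = true → μ ≤ p) (hy' : ∀ p, y' p = true ↔ y p = true ∧ p ≠ μ)
    (h : ∃ k, Two z y k) (h' : ∃ k, Two z y' k) : colr z y ≠ colr z y' := by
  classical
  obtain ⟨p, q, hp, hpq, hq, hp1, hq1⟩ := two_kap h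
  obtain ⟨p', q', hp', hpq', hq', hp1', hq1'⟩ := two_kap h'
  have hle : kap z y ≤ kap z y' :=
    kap_le ⟨p', q', hp', hpq', hq', ((hy' _).mp hp1').1, ((hy' _).mp hq1').1⟩
  have hμp : μ ≤ p := hmin p hp1
  -- the number of elements
  have hcn : ∀ n, μ < n → cn y n = cn y' n + 1 := by
    intro n hn
    unfold cn
    have : (Finset.range n).filter (fun p => y p = true) =
        insert μ ((Finset.range n).filter fun p => y' p = true) := by
      ext x
      rw [Finset.mem_insert, Finset.mem_filter, Finset.mem_filter, Finset.mem_range, hy']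
      constructor
      · rintro ⟨h1, h2⟩
        by_cases hx : x = μ
        · exact Or.inl hx
        · exact Or.inr ⟨h1, h2, hx⟩
      · rintro (rfl | ⟨h1, h2, -⟩)
        · exact ⟨hn, hμ⟩
        · exact ⟨h1, h2⟩
    rw [this, Finset.card_insert_of_notMem]
    rw [Finset.mem_filter, hy']
    exact fun h => h.2.2 rfl
  have hN := hcn _ ((hμp.trans_lt hpq).trans hq)
  rcases hle.eq_or_lt with heq | hlt
  · -- the same interval
    have h2 : 2 ≤ cn y' (ep z (kap z y' + 1)) := cn_two hpq' hq' hp1' hq1'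
    unfold colr
    rw [heq] at hN ⊢
    rw [hN]
    have h3 : ¬ (cn y' (ep z (kap z y' + 1)) + 1 = 2) := by omega
    rw [if_neg h3]
    by_cases h4 : cn y' (ep z (kap z y' + 1)) = 2
    · rw [if_pos h4, h4]
      decide
    · rw [if_neg h4]
      rcases Nat.mod_two_eq_zero_or_one (cn y' (ep z (kap z y' + 1))) with h5 | h5
      · have h6 : (cn y' (ep z (kap z y' + 1)) + 1) % 2 = 1 := by omega
        rw [h5, h6]
        decide
      · have h6 : (cn y' (ep z (kap z y' + 1)) + 1) % 2 = 0 := by omega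
        rw [h5, h6]
        decide
  · -- a later interval
    have hno : ¬ Two z y' (kap z y) := fun h1 => absurd (kap_le h1) (not_le.mpr hlt)
    have hμk : ep z (kap z y) ≤ μ := by
      by_contra hcon
      rw [not_le] at hcon
      exact hno ⟨p, q, hp, hpq, hq, (hy' p).mpr ⟨hp1, (hcon.trans_le hp).ne'⟩,
        (hy' q).mpr ⟨hq1, ((hcon.trans_le hp).trans hpq).ne'⟩⟩
    have h2 : cn y (ep z (kap z y + 1)) = 2 := by
      refine le_antisymm ?_ (cn_two hpq hq hp1 hq1)
      rw [hN]
      by_contra hcon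
      have h3 : 1 < cn y' (ep z (kap z y + 1)) := by omega
      obtain ⟨a, ha, b, hb, hab⟩ := Finset.one_lt_card.mp h3
      rw [Finset.mem_filter, Finset.mem_range] at ha hb
      have ha2 : ep z (kap z y) ≤ a := hμk.trans (hmin a ((hy' a).mp ha.2).1)
      have hb2 : ep z (kap z y) ≤ b := hμk.trans (hmin b ((hy' b).mp hb.2).1)
      rcases lt_or_gt_of_ne hab with h4 | h4
      · exact hno ⟨a, b, ha2, h4, hb.1, ha.2, hb.2⟩
      · exact hno ⟨b, a, hb2, h4, ha.1, hb.2, ha.2⟩
    have h3 : 3 ≤ cn y' (ep z (kap z y' + 1)) := by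
      have h4 : q < p' := (hq.trans_le (ep_mono z hlt)).trans_le hp'
      exact cn_three h4 hpq' hq' ((hy' q).mpr ⟨hq1, (hμp.trans_lt hpq).ne'⟩) hp1' hq1'
    unfold colr
    rw [if_pos h2, if_neg (by omega)]
    split_ifs <;> decide

theorem hasColouring (z : ℕ → ℕ) {A : Set Inf} (hA : ∀ y ∈ A, ∃ k, Two z y.1 k) :
    HasColouring A 3 := by
  have hmain : ∀ y y' : Inf, y ∈ A → y' ∈ A → y' = shift y → colr z y.1 ≠ colr z y'.1 := by
    rintro y _ hy hy' rfl
    refine colr_ne (μ := sInf {m | y.1 m = true}) (Nat.sInf_mem y.2.nonempty)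
      (fun p hp => Nat.sInf_le hp) (fun p => ?_) (hA _ hy) (hA _ hy')
    show (y.1 p && decide (p ≠ sInf {m | y.1 m = true})) = true ↔ _
    rw [Bool.and_eq_true, decide_eq_true_iff]
  refine ⟨fun y => colr z y.1.1, ?_, ?_⟩
  · exact (measurable_colr z).comp (measurable_subtype_coe.comp measurable_subtype_coe)
  · rintro ⟨y, hy⟩ ⟨y', hy'⟩ (h | h)
    · exact hmain y y' hy hy' h
    · exact (hmain y' y hy' hy h).symm

/-! ### The Borel set -/

section Main

variable (g : (ℕ → ℕ) → (ℕ → ℕ))

/-- The tree of the set `{z | g z = x}`. -/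
def R (x z : ℕ → ℕ) (n : ℕ) : Prop := ∃ w : ℕ → ℕ, (∀ i < n, w i = z i) ∧ ∀ i < n, g w i = x i

/-- Compatibility: at most one element of `y` in each of the first `n` intervals. -/
def Cmp (y : ℕ → Bool) (z : ℕ → ℕ) (n : ℕ) : Prop := ∀ k < n, ¬ Two z y k

/-- The conjunction. -/
def Q (x : ℕ → ℕ) (y : ℕ → Bool) (z : ℕ → ℕ) (n : ℕ) : Prop := R g x z n ∧ Cmp y z n

variable {g}

theorem ep_congr {z z' : ℕ → ℕ} {n k : ℕ} (h : ∀ i < n, z i = z' i) (hk : k ≤ n) :
    ep z k = ep z' k :=
  Finset.sum_congr rfl fun i hi => by rw [h i ((Finset.mem_range.mp hi).trans_le hk)]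

theorem Q.congr {x : ℕ → ℕ} {y : ℕ → Bool} {z z' : ℕ → ℕ} {n : ℕ} (h : ∀ i < n, z i = z' i)
    (hQ : Q g x y z n) : Q g x y z' n := by
  refine ⟨?_, fun k hk => ?_⟩
  · obtain ⟨w, h1, h2⟩ := hQ.1
    exact ⟨w, fun i hi => (h1 i hi).trans (h i hi), h2⟩
  · rintro ⟨p, q, h1, h2, h3, h4⟩
    refine hQ.2 k hk ⟨p, q, ?_, h2, ?_, h4⟩
    · rwa [ep_congr h hk.le]
    · rwa [ep_congr h hk]

theorem Q.mono {x : ℕ → ℕ} {y : ℕ → Bool} {z : ℕ → ℕ} {n m : ℕ} (hmn : m ≤ n)
    (hQ : Q g x y z n) : Q g x y z m := by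
  refine ⟨?_, fun k hk => hQ.2 k (hk.trans_le hmn)⟩
  obtain ⟨w, h1, h2⟩ := hQ.1
  exact ⟨w, fun i hi => h1 i (hi.trans_le hmn), fun i hi => h2 i (hi.trans_le hmn)⟩

theorem isOpen_of_dep {D : Set (ℕ → ℕ)} {n : ℕ}
    (h : ∀ z z' : ℕ → ℕ, (∀ i < n, z i = z' i) → z ∈ D → z' ∈ D) : IsOpen D := by
  have : D = ⋃ z ∈ D, ⋂ i ∈ Iio n, (fun z' : ℕ → ℕ => z' i) ⁻¹' {z i} := by
    ext z'
    simp only [mem_iUnion, mem_iInter, mem_Iio, mem_preimage, mem_singleton_iff, exists_prop]
    constructor
    · intro hz'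
      exact ⟨z', hz', fun _ _ => rfl⟩
    · rintro ⟨z, hz, h1⟩
      exact h z z' (fun i hi => (h1 i hi).symm) hz
  rw [this]
  exact isOpen_biUnion fun z _ => (finite_Iio n).isOpen_biInter fun i _ =>
    (isOpen_discrete _).preimage (continuous_apply i)

theorem isClosed_of_dep {D : Set (ℕ → ℕ)} {n : ℕ}
    (h : ∀ z z' : ℕ → ℕ, (∀ i < n, z i = z' i) → z ∈ D → z' ∈ D) : IsClosed D := by
  rw [← isOpen_compl_iff]
  exact isOpen_of_dep (n := n) fun z z' hz h1 h2 => h1 (h z' z (fun i hi => (hz i hi).symm) h2)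

/-- The end points are bounded in terms of `y`. -/
theorem ep_le_nth (y : Inf) {z : ℕ → ℕ} {n : ℕ} (h : Cmp y.1 z n) :
    ∀ k ≤ n, ep z k ≤ Nat.nth (fun p => y.1 p = true) k := by
  intro k
  induction k with
  | zero => intro _; simp [ep]
  | succ k ih =>
    intro hk
    by_contra hcon
    rw [not_le] at hcon
    refine h k hk ⟨_, _, ih (by omega), Nat.nth_strictMono y.2 (Nat.lt_succ_self k), hcon,
      Nat.nth_mem_of_infinite y.2 k, Nat.nth_mem_of_infinite y.2 (k + 1)⟩

/-- König's lemma. -/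
theorem konig {x : ℕ → ℕ} (y : Inf) {s : ℕ → ℕ} {m : ℕ}
    (h : ∀ n, ∃ z : ℕ → ℕ, (∀ i < m, z i = s i) ∧ Q g x y.1 z n) :
    ∃ z : ℕ → ℕ, (∀ i < m, z i = s i) ∧ ∀ n, Q g x y.1 z n := by
  let b : ℕ → ℕ := fun k => Nat.nth (fun p => y.1 p = true) (k + 1)
  let K : Set (ℕ → ℕ) := {z | ∀ k, z k ≤ b k}
  have hK : IsCompact K := by
    have : K = Set.pi univ fun k => Set.Iic (b k) := by
      ext z
      simp only [K, mem_ofPred_eq, mem_univ_pi, mem_Iic]
    rw [this]
    exact isCompact_univ_pi fun k => (finite_Iic (b k)).isCompact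
  have hKc : IsClosed K := hK.isClosed
  let C : ℕ → Set (ℕ → ℕ) := fun n => K ∩ {z | (∀ i < m, z i = s i) ∧ Q g x y.1 z n}
  have hC : (⋂ n, C n).Nonempty := by
    refine IsCompact.nonempty_iInter_of_sequence_nonempty_isCompact_isClosed C ?_ ?_ ?_ ?_
    · rintro n z ⟨h1, h2, h3⟩
      exact ⟨h1, h2, h3.mono (Nat.le_succ n)⟩
    · intro n
      obtain ⟨z, hz1, hz2⟩ := h (max n m)
      refine ⟨fun i => if i < max n m then z i else 0, ?_, ?_, ?_⟩
      · intro k
        by_cases hk : k < max n m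
        · simp only [hk, if_true]
          have h1 := ep_le_nth y hz2.2 (k + 1) hk
          rw [ep_succ] at h1
          simp only [b]
          omega
        · simp only [hk, if_false]
          exact Nat.zero_le _
      · intro i hi
        have : i < max n m := hi.trans_le (le_max_right _ _)
        simp only [this, if_true]
        exact hz1 i hi
      · refine (hz2.congr fun i hi => ?_).mono (le_max_left n m)
        simp only [hi, if_true]
    · refine hK.inter_right (isClosed_of_dep (n := max 0 m) ?_)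
      intro z z' hz hz2
      exact ⟨fun i hi => (hz i (hi.trans_le (le_max_right _ _))).symm.trans (hz2.1 i hi),
        hz2.2.congr fun i hi => absurd hi (Nat.not_lt_zero i)⟩
    · intro n
      refine hKc.inter (isClosed_of_dep (n := max n m) ?_)
      intro z z' hz hz2
      exact ⟨fun i hi => (hz i (hi.trans_le (le_max_right _ _))).symm.trans (hz2.1 i hi),
        hz2.2.congr fun i hi => hz i (hi.trans_le (le_max_left _ _))⟩
  obtain ⟨z, hz⟩ := hC
  rw [mem_iInter] at hz
  exact ⟨z, (hz 0).2.1, fun n => (hz n).2.2⟩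

/-- Extension of a finite sequence. -/
def ext (l : List ℕ) : ℕ → ℕ := fun i => l.getD i 0

theorem ext_map (z : ℕ → ℕ) (n : ℕ) : ∀ i < n, ext ((List.range n).map z) i = z i := by
  intro i hi
  simp [ext, List.getD, hi]

theorem ext_append_lt (l : List ℕ) (v i : ℕ) (hi : i < l.length) : ext (l ++ [v]) i = ext l i := by
  unfold ext
  rw [List.getD_append _ _ _ _ hi]

theorem ext_append_eq (l : List ℕ) (v : ℕ) : ext (l ++ [v]) l.length = v := by
  unfold ext
  rw [List.getD_append_right _ _ _ _ le_rfl]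
  simp

theorem measurableSet_Q (z : ℕ → ℕ) (n : ℕ) :
    MeasurableSet {p : (ℕ → ℕ) × Inf | Q g p.1 p.2.1 z n} := by
  have h1 : MeasurableSet {x : ℕ → ℕ | R g x z n} := by
    refine (isOpen_of_dep (n := n) ?_).measurableSet
    rintro x x' hx ⟨w, h1, h2⟩
    exact ⟨w, h1, fun i hi => (h2 i hi).trans (hx i hi)⟩
  have h2 : MeasurableSet {y : ℕ → Bool | Cmp y z n} := by
    have : {y : ℕ → Bool | Cmp y z n} = ⋂ k : ℕ, ⋂ _ : k < n, {y : ℕ → Bool | Two z y k}ᶜ := by
      ext y
      simp only [Cmp, mem_ofPred_eq, mem_iInter, mem_compl_iff]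
    rw [this]
    exact MeasurableSet.iInter fun k => MeasurableSet.iInter fun _ => (measurableSet_two z k).compl
  exact (measurable_fst h1).inter ((measurable_subtype_coe.comp measurable_snd) h2)

variable (g) in
/-- The Borel set. -/
def BB : Set ((ℕ → ℕ) × Inf) := {p | ¬ ∃ z : ℕ → ℕ, ∀ n, Q g p.1 p.2.1 z n}

theorem measurableSet_BB : MeasurableSet (BB g) := by
  have : BB g = (⋂ n : ℕ, ⋃ l : List ℕ, {p : (ℕ → ℕ) × Inf | Q g p.1 p.2.1 (ext l) n})ᶜ := by
    ext ⟨x, y⟩
    simp only [BB, mem_ofPred_eq, mem_compl_iff, mem_iInter, mem_iUnion]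
    rw [not_iff_not]
    constructor
    · rintro ⟨z, hz⟩ n
      exact ⟨(List.range n).map z, (hz n).congr fun i hi => (ext_map z n i hi).symm⟩
    · intro h
      obtain ⟨z, -, hz⟩ := konig (g := g) (x := x) y (s := fun _ => 0) (m := 0) fun n => by
        obtain ⟨l, hl⟩ := h n
        exact ⟨ext l, fun i hi => absurd hi (Nat.not_lt_zero i), hl⟩
      exact ⟨z, hz⟩
  rw [this]
  exact (MeasurableSet.iInter fun n => MeasurableSet.iUnion fun l => measurableSet_Q _ _).compl

theorem section_colouring (hs : Function.Surjective g) (x : ℕ → ℕ) :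
    HasColouring {y | (x, y) ∈ BB g} 3 := by
  obtain ⟨z, hz⟩ := hs x
  refine hasColouring z fun y hy => ?_
  by_contra hcon
  exact hy ⟨z, fun n => ⟨⟨z, fun _ _ => rfl, fun i _ => congrFun hz i⟩,
    fun k _ h => hcon ⟨k, h⟩⟩⟩

theorem section_of_unif (hg : Continuous g) {f : (ℕ → ℕ) → Inf} (hf : Measurable f)
    (hfB : ∀ x, (x, f x) ∉ BB g) : ∃ s : (ℕ → ℕ) → (ℕ → ℕ), Measurable s ∧ ∀ x, g (s x) = x := by
  classical
  let _ : MeasurableSpace (List ℕ) := ⊤
  have _ : MeasurableSingletonClass (List ℕ) := ⟨fun _ => trivial⟩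
  -- extendible sequences
  let E : List ℕ → (ℕ → ℕ) → Prop := fun l x =>
    ∀ n, ∃ z : ℕ → ℕ, (∀ i < l.length, z i = ext l i) ∧ Q g x (f x).1 z n
  have hE0 : ∀ x, E [] x := by
    intro x n
    have h1 := hfB x
    simp only [BB, mem_ofPred_eq, not_not] at h1
    obtain ⟨z, hz⟩ := h1
    exact ⟨z, fun i hi => absurd hi (Nat.not_lt_zero i), hz n⟩
  have hEs : ∀ l x, E l x → ∃ v, E (l ++ [v]) x := by
    intro l x hl
    obtain ⟨z, hz1, hz2⟩ := konig (f x) hl
    refine ⟨z l.length, fun n => ⟨z, fun i hi => ?_, hz2 n⟩⟩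
    rw [List.length_append, List.length_singleton] at hi
    rcases Nat.lt_succ_iff_lt_or_eq.mp hi with h | rfl
    · rw [ext_append_lt _ _ _ h]
      exact hz1 i h
    · rw [ext_append_eq]
  have hEm : ∀ l, MeasurableSet {x | E l x} := by
    intro l
    have : {x | E l x} = ⋂ n : ℕ, ⋃ l' : List ℕ, ⋃ _ : ∀ i < l.length, ext l' i = ext l i,
        {x | Q g x (f x).1 (ext l') n} := by
      ext x
      simp only [E, mem_ofPred_eq, mem_iInter, mem_iUnion, exists_prop]
      constructor
      · intro h n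
        obtain ⟨z, hz1, hz2⟩ := h (max n l.length)
        refine ⟨(List.range (max n l.length)).map z, fun i hi => ?_, ?_⟩
        · rw [ext_map z _ i (hi.trans_le (le_max_right _ _))]
          exact hz1 i hi
        · exact (hz2.congr fun i hi => (ext_map z _ i hi).symm).mono (le_max_left _ _)
      · intro h n
        obtain ⟨l', h1, h2⟩ := h n
        exact ⟨ext l', h1, h2⟩
    rw [this]
    refine MeasurableSet.iInter fun n => MeasurableSet.iUnion fun l' => MeasurableSet.iUnion fun _ => ?_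
    have h1 : Measurable fun x => (x, f x) := measurable_id.prodMk hf
    exact h1 (measurableSet_Q (g := g) (ext l') n)
  -- the least extension
  have hfind : ∀ l x, ∃ v, E (l ++ [v]) x ∨ ¬ ∃ v, E (l ++ [v]) x := by
    intro l x
    by_cases h : ∃ v, E (l ++ [v]) x
    · obtain ⟨v, hv⟩ := h
      exact ⟨v, Or.inl hv⟩
    · exact ⟨0, Or.inr h⟩
  let nx : List ℕ → (ℕ → ℕ) → ℕ := fun l x => Nat.find (hfind l x)
  have hnxm : ∀ l, Measurable (nx l) := by
    intro l
    refine measurable_find (hfind l) fun v => ?_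
    have : {x | E (l ++ [v]) x ∨ ¬ ∃ v, E (l ++ [v]) x} =
        {x | E (l ++ [v]) x} ∪ (⋃ v, {x | E (l ++ [v]) x})ᶜ := by
      ext x
      simp
    rw [this]
    exact (hEm _).union (MeasurableSet.iUnion fun v => hEm _).compl
  have hnxE : ∀ l x, E l x → E (l ++ [nx l x]) x := by
    intro l x hl
    rcases Nat.find_spec (hfind l x) with h1 | h1
    · exact h1
    · exact absurd (hEs l x hl) h1
  let st : ℕ → (ℕ → ℕ) → List ℕ := fun k x => Nat.rec [] (fun _ l => l ++ [nx l x]) k
  have hst : ∀ k x, st (k + 1) x = st k x ++ [nx (st k x) x] := fun _ _ => rfl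
  have hstE : ∀ k x, E (st k x) x := by
    intro k x
    induction k with
    | zero => exact hE0 x
    | succ k ih => exact hnxE _ _ ih
  have hstl : ∀ k x, (st k x).length = k := by
    intro k x
    induction k with
    | zero => rfl
    | succ k ih => rw [hst, List.length_append, ih, List.length_singleton]
  have hnx2 : Measurable fun p : List ℕ × (ℕ → ℕ) => nx p.1 p.2 :=
    measurable_from_prod_countable_right fun l => hnxm l
  have happ : Measurable fun p : List ℕ × ℕ => p.1 ++ [p.2] :=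
    measurable_of_countable _
  have hstm : ∀ k, Measurable (st k) := by
    intro k
    induction k with
    | zero => exact measurable_const
    | succ k ih =>
      have h1 : Measurable fun x => nx (st k x) x := hnx2.comp (ih.prodMk measurable_id)
      exact happ.comp (ih.prodMk h1)
  refine ⟨fun x k => nx (st k x) x, measurable_pi_iff.mpr fun k =>
    hnx2.comp ((hstm k).prodMk measurable_id), fun x => ?_⟩
  set z : ℕ → ℕ := fun k => nx (st k x) x with hz
  have hagree : ∀ n, ∀ i < n, ext (st n x) i = z i := by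
    intro n
    induction n with
    | zero => intro i hi; exact absurd hi (Nat.not_lt_zero i)
    | succ n ih =>
      intro i hi
      rw [hst]
      rcases Nat.lt_succ_iff_lt_or_eq.mp hi with h | rfl
      · rw [ext_append_lt _ _ _ (by rw [hstl]; exact h)]
        exact ih i h
      · have h1 := ext_append_eq (st i x) (nx (st i x) x)
        rw [hstl] at h1
        exact h1
  have hR : ∀ n, R g x z n := by
    intro n
    obtain ⟨z', h1, h2⟩ := hstE n x n
    rw [hstl] at h1
    exact (h2.congr fun i hi => (h1 i hi).trans (hagree n i hi)).1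
  -- continuity
  funext i
  have hopen : IsOpen {w : ℕ → ℕ | g w i = g z i} := by
    have h1 : Continuous fun w => g w i := (continuous_apply i).comp hg
    exact (isOpen_discrete {g z i}).preimage h1
  rw [isOpen_pi_iff] at hopen
  obtain ⟨T, u, hu, hT⟩ := hopen z rfl
  obtain ⟨w, hw1, hw2⟩ := hR (max (T.sup id + 1) (i + 1))
  have h1 : g w i = g z i := by
    refine hT fun j hj => ?_
    have hjT : j < max (T.sup id + 1) (i + 1) :=
      (Nat.lt_succ_of_le (Finset.le_sup (f := id) hj)).trans_le (le_max_left _ _)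
    rw [hw1 j hjT]
    exact (hu j hj).2
  rw [← h1]
  exact hw2 i ((Nat.lt_succ_self i).trans_le (le_max_right _ _))

end Main

/-- **Main theorem.** There is a Borel set `B ⊆ ℕ^ℕ × [ℕ]^ℕ` such that the shift graph restricted
to each section of `B` has a Borel 3-colouring, but the complement of `B` has no full Borel
uniformization. -/
theorem result : ∃ B : Set ((ℕ → ℕ) × Inf), MeasurableSet B ∧
    (∀ x, HasColouring {y | (x, y) ∈ B} 3) ∧
    ¬ ∃ f : (ℕ → ℕ) → Inf, Measurable f ∧ ∀ x, (x, f x) ∉ B := by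
  obtain ⟨g, hg, hs, hno⟩ := Pool.Agent.V11256.NoUnif.exists_surj
  refine ⟨BB g, measurableSet_BB, section_colouring hs, ?_⟩
  rintro ⟨f, hf, hfB⟩
  exact hno (section_of_unif hg hf hfB)

end Pool.Agent.Results.MP_bd9785_lc.NoUniformization
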